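import Mathlib
import Pool.Agent.H868R3.OpenMain
import Pool.Agent.H194R3.Tate.Mixed

/-!
# Invariant classes on smooth varieties over finite fields with a compactification dominated by
# products of varieties with flipped or pair-transitive Frobenius fields

Let `X i` be finitely many smooth projective varieties (for example curves) over the field with
`p ^ a` elements, `V i` the dual of the (interesting part of the) cohomology group of `X i` in
degree `w i`, with coefficients extended to an algebraically closed field, and `F i` the transpose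
of the Frobenius, `m i = a * w i`; forms in variables `v l ∈ V (t l)` are elements of the tensor
products of cohomology groups.  Suppose that the eigenvalues of `F i` are conjugates of a number
`π i` generating a CM field `K i` which is of flip type or of pair type (see the definitions), and
that embeddings of different `K i`, `K j` are cross flipped.  Pair type: the automorphisms of the
complex numbers act transitively on the unordered pairs of embeddings of the maximal real subfield,
of degree `n`, and `n` is odd, or `n - 1` is prime, or the same holds for triples; `π i` is not of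
Weil type. There are no other conditions on the slopes.

Let `U = H^{2 i} (X) (i)` for a smooth, not necessarily proper, variety `X` over an extension of
degree `s`, `Φ` the Frobenius of this extension, and assume that the pure part of `U` is the sum
of the images of the Kuenneth components (twisted) of products of the `X i`, by maps
`r j` compatible with Frobenius: this is so if `X` is open in a product of the `X i`, or in a
smooth projective variety dominated by such products.  Then all elements of `U` fixed by `Φ` come
from products of pairings, that is, from classes of cycles on products `X i × X i`.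
-/

set_option autoImplicit false

namespace Pool.Agent.Results.MP_2a05c8_ag.MixedFamiliesOpen

open Module Pool.Agent.H485R3 Pool.Agent.H194R3.Tate

/-- The spaces of forms in the variables `v l ∈ V (t j l)` are mapped to `U` by `r j`, and
`Φ (r j φ) = c j ^ (- s) r j (φ (F ^ s ·))`, `c j ^ 2` the product of the `p ^ m (t j l)`; every
`u` in the sum of the images with `Φ u = u` is a sum of images of products of pairings. -/
theorem result (p : ℕ) [Fact p.Prime] {I : Type} [Finite I] (K : I → Type)
    [∀ i, Field (K i)] [∀ i, NumberField (K i)] [∀ i, NumberField.IsCMField (K i)]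
    (m : I → ℕ) (π : ∀ i, K i) (hgen : ∀ i, IntermediateField.adjoin ℚ {π i} = ⊤)
    (hweil : ∀ i, ∀ φ : K i →+* ℂ, ‖φ (π i)‖ ^ 2 = (p : ℝ) ^ m i)
    (hπ : ∀ i, PairType p (m i) (π i) ∨ FlipType p (m i) (π i))
    (hcross : ∀ i j, i ≠ j → ∀ (φ : K i →+* ℂ) (ψ : K j →+* ℂ), CrossFlipped φ ψ)
    {Ω : Type*} [Field Ω] [IsAlgClosed Ω] [CharZero Ω]
    (V : I → Type*) [∀ i, AddCommGroup (V i)] [∀ i, Module Ω (V i)]
    [∀ i, FiniteDimensional Ω (V i)] (F : ∀ i, V i →ₗ[Ω] V i)
    (hF : ∀ i, Submodule.span Ω {v : V i | ∃ σ : K i →+* Ω, F i v = σ (π i) • v} = ⊤)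
    {J : Type} [Finite J] (n : J → ℕ) (t : ∀ j, Fin (n j) → I) (s : ℕ) (hs : 0 < s) (c : J → Ω)
    (hc : ∀ j, c j ^ 2 = ∏ l, (p : Ω) ^ m (t j l))
    {U : Type*} [AddCommGroup U] [Module Ω U] (Φ : U →ₗ[Ω] U)
    (r : ∀ j, MultilinearMap Ω (fun l => V (t j l)) Ω →ₗ[Ω] U)
    (hr : ∀ j φ, r j (φ.compLinearMap (fun l => F (t j l) ^ s)) = c j ^ s • Φ (r j φ))
    (u : U) (hu : u ∈ ⨆ j, LinearMap.range (r j)) (hΦ : Φ u = u) :
    u ∈ ⨆ j, (Submodule.span Ω
      {ψ | IsProductOfPairings V F (fun i => (p : Ω) ^ m i) (t j) ψ}).map (r j) := by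
  have hq : ∀ i, (0 : ℚ) < (p : ℚ) ^ m i :=
    fun i => pow_pos (by exact_mod_cast (Fact.out : p.Prime).pos) _
  have hp0 : (p : Ω) ≠ 0 := by exact_mod_cast (Fact.out : p.Prime).ne_zero
  have hcast : ∀ i, (((p : ℚ) ^ m i : ℚ) : Ω) = (p : Ω) ^ m i := by
    intro i
    push_cast
    rfl
  have h2 : (fun i => (p : Ω) ^ m i) = fun i => (((p : ℚ) ^ m i : ℚ) : Ω) :=
    funext fun i => (hcast i).symm
  have hc0 : ∀ j, c j ≠ 0 := by
    intro j h
    have h3 := hc j
    rw [h, zero_pow two_ne_zero] at h3
    exact Finset.prod_ne_zero_iff.2 (fun l _ => pow_ne_zero _ hp0) h3.symm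
  have hweil' : ∀ i, ∀ φ : K i →+* ℂ, ‖φ (π i)‖ ^ 2 = (((p : ℚ) ^ m i : ℚ) : ℝ) := by
    intro i φ
    rw [hweil i φ]
    push_cast
    rfl
  refine Pool.Agent.H868R3.TwoOdd.family_lift V F
    (fun i => {μ : Ω | ∃ σ : K i →+* Ω, σ (π i) = μ}) ?_ n t s c hc0 _ ?_ Φ r hr u hu hΦ
  · intro i
    rw [← hF i]
    congr 1
    ext v
    constructor
    · rintro ⟨μ, ⟨σ, rfl⟩, h⟩
      exact ⟨σ, h⟩
    · rintro ⟨σ, h⟩
      exact ⟨_, ⟨σ, rfl⟩, h⟩
  · intro j φ hφ
    rw [h2]
    refine multi_of_norel p (fun i => (p : ℚ) ^ m i) hq π hgen hweil'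
      (fun _ => norel_of_mixed p m π hweil' hπ hcross) V F hF (t j) s hs (c j)
      (by rw [hc]; exact Finset.prod_congr rfl fun l _ => (hcast _).symm) φ fun v => ?_
    exact congrArg (fun ψ : MultilinearMap Ω (fun l => V (t j l)) Ω => ψ v) hφ

end Pool.Agent.Results.MP_2a05c8_ag.MixedFamiliesOpen
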