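import Mathlib
import Pool.Agent.H868R3.TateAb
import Pool.Agent.H868R3.OpenMain

/-!
# Invariant classes on smooth varieties over finite fields: Frobenius fields with an abelian
transitive group

Let `X i` be smooth projective varieties over the field with `p ^ a` elements, `V` the dual of the
direct sum of (Frobenius stable parts of) their cohomology groups in degree `w`, with coefficients
extended to an algebraically closed field, `F` the transpose of the Frobenius, `m = a * w`. Suppose
that the eigenvalues of `F` are conjugates of one number `π`, which generates a CM field `K` such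
that an abelian subgroup of the Galois group of the Galois closure of `K` is transitive on the
embeddings of `K` (`K` abelian over `ℚ`, or of degree twice a prime number, or generic), and that no
*set* of slopes is balanced together with all its Galois translates.

Let `U = H^{2 i} (X) (i)` for a smooth, not necessarily proper, variety `X` over an extension of
degree `s`, `Φ` the Frobenius of this extension, and assume that the pure part of `U` is the sum
of the images of Kuenneth components (twisted) of products of the `X i`, by maps `r j` compatible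
with Frobenius: this is so if `X` is open in a product of the `X i`, or in a smooth projective
variety dominated by such products.  Then all elements of `U` fixed by `Φ` come from products of
pairings.
-/

set_option autoImplicit false

namespace Pool.Agent.Results.MP_2a05c8_ag.OpenAbelianTransitive

open Module Pool.Agent.H485R3 Pool.Agent.H204R3.CM Pool.Agent.H868R3.GPI

/-- There is no nonempty set `T` of `p`-adic embeddings of `K`, disjoint from its complex
conjugate, such that for `T` and all its translates by automorphisms the mean value of the slopes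
`v (τ π)` is `m / 2`. Here `v = - log_p ‖ ‖` is the `p`-adic valuation with `v p = 1`. -/
def NoBalancedSet (p : ℕ) [Fact p.Prime] {K : Type} [Field K] [NumberField K]
    [NumberField.IsCMField K] (m : ℕ) (π : K) : Prop :=
  ∀ T : Finset (K →+* PadicAlgCl p), T.Nonempty → (∀ τ ∈ T, cbar τ ∉ T) →
    ∃ σ : PadicAlgCl p ≃+* PadicAlgCl p, ∑ τ ∈ T, (2 * (-Real.logb p ‖σ (τ π)‖) - m) ≠ 0

/-- The spaces of `n j`-linear forms on `V` are mapped to `U` by `r j`, and
`Φ (r j φ) = c j ^ (- s) r j (φ (F ^ s ·))`, `c j ^ 2 = p ^ (m n j)`; every `u` in the sum of the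
images with `Φ u = u` is a sum of images of products of pairings. -/
theorem result (p : ℕ) [Fact p.Prime] (K : Type) [Field K] [NumberField K]
    [NumberField.IsCMField K] (hK : AbTrans K) (m : ℕ) (π : K)
    (hgen : IntermediateField.adjoin ℚ {π} = ⊤)
    (hweil : ∀ φ : K →+* ℂ, ‖φ π‖ ^ 2 = (p : ℝ) ^ m)
    (hslope : NoBalancedSet p m π)
    {Ω : Type*} [Field Ω] [IsAlgClosed Ω] [CharZero Ω]
    (V : Type*) [AddCommGroup V] [Module Ω V] [FiniteDimensional Ω V] (F : V →ₗ[Ω] V)
    (hF : Submodule.span Ω {v : V | ∃ σ : K →+* Ω, F v = σ π • v} = ⊤)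
    {J : Type} [Finite J] (n : J → ℕ) (s : ℕ) (hs : 0 < s) (c : J → Ω)
    (hc : ∀ j, c j ^ 2 = ((p : Ω) ^ m) ^ n j)
    {U : Type*} [AddCommGroup U] [Module Ω U] (Φ : U →ₗ[Ω] U)
    (r : ∀ j, MultilinearMap Ω (fun _ : Fin (n j) => V) Ω →ₗ[Ω] U)
    (hr : ∀ j φ, r j (φ.compLinearMap (fun _ => F ^ s)) = c j ^ s • Φ (r j φ))
    (u : U) (hu : u ∈ ⨆ j, LinearMap.range (r j)) (hΦ : Φ u = u) :
    u ∈ ⨆ j, (Submodule.span Ω {ψ | IsProductOfPairings (fun _ : Unit => V) (fun _ => F)
      (fun _ => (p : Ω) ^ m) (fun _ : Fin (n j) => ()) ψ}).map (r j) := by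
  have hq : (0 : ℚ) < (p : ℚ) ^ m := pow_pos (by exact_mod_cast (Fact.out : p.Prime).pos) _
  have hp0 : (p : Ω) ≠ 0 := by exact_mod_cast (Fact.out : p.Prime).ne_zero
  have hcast : (((p : ℚ) ^ m : ℚ) : Ω) = (p : Ω) ^ m := by
    push_cast
    rfl
  have hweil' : ∀ φ : K →+* ℂ, ‖φ π‖ ^ 2 = ((((p : ℚ) ^ m : ℚ)) : ℝ) := by
    intro φ
    rw [hweil φ]
    push_cast
    rfl
  have hπ : π ≠ 0 := Pool.Agent.H868R3.TwoOdd.weil_ne hq hweil'
  have hbot := Pool.Agent.H868R3.TateAb.relW_bot hK hq π hπ hweil'
    (Pool.Agent.H868R3.TateAb.no_relation p m π hπ hslope)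
  have hc0 : ∀ j, c j ≠ 0 := by
    intro j h
    have h3 := hc j
    rw [h, zero_pow two_ne_zero] at h3
    exact pow_ne_zero _ (pow_ne_zero _ hp0) h3.symm
  refine Pool.Agent.H868R3.TwoOdd.family_lift (fun _ : Unit => V) (fun _ => F)
    (fun _ => {μ : Ω | ∃ σ : K →+* Ω, σ π = μ}) ?_ n (fun _ _ => ()) s c hc0 _ ?_ Φ r hr u hu hΦ
  · intro i
    rw [← hF]
    congr 1
    ext v
    constructor
    · rintro ⟨μ, ⟨σ, rfl⟩, h⟩
      exact ⟨σ, h⟩
    · rintro ⟨σ, h⟩
      exact ⟨_, ⟨σ, rfl⟩, h⟩
  · intro j φ hφ
    have h := Pool.Agent.H868R3.TateAb.main hq π hπ hgen hweil' hbot V F hF s hs (c j)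
      (by rw [hc, hcast]) φ (fun v =>
        congrArg (fun ψ : MultilinearMap Ω (fun _ : Fin (n j) => V) Ω => ψ v) hφ)
    rwa [hcast] at h

end Pool.Agent.Results.MP_2a05c8_ag.OpenAbelianTransitive
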