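import Mathlib
import Pool.Agent.H868R3.OpenMain

/-!
# Invariant classes on smooth varieties over finite fields with a compactification dominated by
# products of varieties with Frobenius fields of 2-power degree and independent discriminants

Let `X i` be finitely many smooth projective varieties (for example curves) over the field with
`p ^ a` elements, `V i` the dual of the (interesting part of the) cohomology group of `X i` in
degree `w i`, with coefficients extended to an algebraically closed field, and `F i` the transpose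
of the Frobenius, `m i = a * w i`; forms in variables `v l ∈ V (t l)` are elements of the tensor
products of cohomology groups.  Suppose that the eigenvalues of `F i` are conjugates of a number `π i` generating
a CM field `K i` of degree `2 ^ (k i + 1)`, that no product of the discriminants of the `K i` over a
nonempty set of indices is a square, and that the numbers `2 v (τ (π i)) - m i` (`v (τ (π i))` runs
through the slopes) are of the form `κ i * odd`, `κ i ≠ 0` (the ordinary curves for example).

Let `U = H^{2 i} (X) (i)` for a smooth, not necessarily proper, variety `X` over an extension of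
degree `s`, `Φ` the Frobenius of this extension, and assume that the pure part of `U` is the sum
of the images of the Kuenneth components (twisted) of products of the `X i`, by maps
`r j` compatible with Frobenius: this is so if `X` is open in a product of the `X i`, or in a
smooth projective variety dominated by such products.  Then all elements of `U` fixed by `Φ` come
from products of pairings, that is, from classes of cycles on products `X i × X i`.
-/

set_option autoImplicit false

namespace Pool.Agent.Results.MP_2a05c8_ag.OpenVarieties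

open Module Pool.Agent.H485R3

/-- The spaces of forms in the variables `v l ∈ V (t j l)` are mapped to `U` by `r j`, and
`Φ (r j φ) = c j ^ (- s) r j (φ (F ^ s ·))`, `c j ^ 2` the product of the `p ^ m (t j l)`; every
`u` in the sum of the images with `Φ u = u` is a sum of images of products of pairings. -/
theorem result (p : ℕ) [Fact p.Prime] {I : Type} [Finite I] (K : I → Type)
    [∀ i, Field (K i)] [∀ i, NumberField (K i)] [∀ i, NumberField.IsCMField (K i)]
    (k : I → ℕ) (hdeg : ∀ i, finrank ℚ (K i) = 2 ^ (k i + 1))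
    (hdisc : ∀ S : Finset I, S.Nonempty → ¬ IsSquare (∏ i ∈ S, NumberField.discr (K i)))
    (m : I → ℕ) (π : ∀ i, K i) (hgen : ∀ i, IntermediateField.adjoin ℚ {π i} = ⊤)
    (hweil : ∀ i, ∀ φ : K i →+* ℂ, ‖φ (π i)‖ ^ 2 = (p : ℝ) ^ m i)
    (κ : I → ℚ) (hκ : ∀ i, κ i ≠ 0) (o : ∀ i, (K i →+* PadicAlgCl p) → ℤ)
    (hodd : ∀ i τ, Odd (o i τ))
    (hslope : ∀ i, ∀ τ : K i →+* PadicAlgCl p,
      2 * (- Real.logb p ‖τ (π i)‖) - m i = (κ i : ℝ) * o i τ)
    {Ω : Type*} [Field Ω] [IsAlgClosed Ω] [CharZero Ω]
    (V : I → Type*) [∀ i, AddCommGroup (V i)] [∀ i, Module Ω (V i)]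
    [∀ i, FiniteDimensional Ω (V i)] (F : ∀ i, V i →ₗ[Ω] V i)
    (hF : ∀ i, Submodule.span Ω {v : V i | ∃ σ : K i →+* Ω, F i v = σ (π i) • v} = ⊤)
    {J : Type} [Finite J] (n : J → ℕ) (t : ∀ j, Fin (n j) → I) (s : ℕ) (hs : 0 < s) (c : J → Ω)
    (hc : ∀ j, c j ^ 2 = ∏ l, (p : Ω) ^ m (t j l))
    {U : Type*} [AddCommGroup U] [Module Ω U] (Φ : U →ₗ[Ω] U)
    (r : ∀ j, MultilinearMap Ω (fun l => V (t j l)) Ω →ₗ[Ω] U)
    (hr : ∀ j φ, r j (φ.compLinearMap (fun l => F (t j l) ^ s)) = c j ^ s • Φ (r j φ))
    (u : U) (hu : u ∈ ⨆ j, LinearMap.range (r j)) (hΦ : Φ u = u) :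
    u ∈ ⨆ j, (Submodule.span Ω
      {ψ | IsProductOfPairings V F (fun i => (p : Ω) ^ m i) (t j) ψ}).map (r j) := by
  have hq : ∀ i, (0 : ℚ) < (p : ℚ) ^ m i :=
    fun i => pow_pos (by exact_mod_cast (Fact.out : p.Prime).pos) _
  have hp1 : (1 : ℝ) < p := by exact_mod_cast (Fact.out : p.Prime).one_lt
  have hp0 : (p : Ω) ≠ 0 := by exact_mod_cast (Fact.out : p.Prime).ne_zero
  have hcast : ∀ i, (((p : ℚ) ^ m i : ℚ) : Ω) = (p : Ω) ^ m i := by
    intro i
    push_cast
    rfl
  have h1 : ∀ i, - Real.logb p ‖((((p : ℚ) ^ m i : ℚ)) : PadicAlgCl p)‖ = m i := by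
    intro i
    rw [Pool.Agent.H925R2.norm_pow_cast, Real.logb_inv, Real.logb_pow,
      Real.logb_self_eq_one hp1]
    ring
  have h2 : (fun i => (p : Ω) ^ m i) = fun i => (((p : ℚ) ^ m i : ℚ) : Ω) :=
    funext fun i => (hcast i).symm
  have hc0 : ∀ j, c j ≠ 0 := by
    intro j h
    have h3 := hc j
    rw [h, zero_pow two_ne_zero] at h3
    exact Finset.prod_ne_zero_iff.2 (fun l _ => pow_ne_zero _ hp0) h3.symm
  refine Pool.Agent.H868R3.TwoOdd.family_lift V F
    (fun i => {μ : Ω | ∃ σ : K i →+* Ω, σ (π i) = μ}) ?_ n t s c hc0 _ ?_ Φ r hr u hu hΦ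
  · intro i
    rw [← hF i]
    congr 1
    ext v
    constructor
    · rintro ⟨μ, ⟨σ, rfl⟩, h⟩
      exact ⟨σ, h⟩
    · rintro ⟨σ, h⟩
      exact ⟨_, ⟨σ, rfl⟩, h⟩
  · intro j φ hφ
    rw [h2]
    refine Pool.Agent.H868R3.TwoOdd.main p K k hdeg hdisc (fun i => (p : ℚ) ^ m i) hq π hgen
      (fun i φ => by rw [hweil i φ]; push_cast; rfl) κ hκ o hodd
      (fun i τ => by rw [h1]; exact hslope i τ) V F hF (t j) s hs (c j)
      (by rw [hc]; exact Finset.prod_congr rfl fun l _ => (hcast _).symm) φ fun v => ?_
    exact congrArg (fun ψ : MultilinearMap Ω (fun l => V (t j l)) Ω => ψ v) hφ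

end Pool.Agent.Results.MP_2a05c8_ag.OpenVarieties
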